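import Pool.Agent.Mg.Ff3cd89.G2d40fe

set_option autoImplicit false

open NumberField IsDedekindDomain Pool.Agent.MP_f3cd89_nt

/-- Integrality of non-abelian Stickelberger elements when the Galois group has an abelian normal
subgroup with cyclic quotient. -/
theorem Pool.Agent.Results.MP_f3cd89_nt.AbCyc.result (K L : Type) [Field K] [NumberField K]
    [Field L] [NumberField L] [Algebra K L] [IsGalois K L] [IsTotallyReal K] [IsCMField L]
    (A : Subgroup (L ≃ₐ[K] L)) [A.Normal] (hA : ∀ a ∈ A, ∀ b ∈ A, a * b = b * a)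
    (hc : IsCyclic ((L ≃ₐ[K] L) ⧸ A))
    (S : Finset (HeightOneSpectrum (𝓞 K)))
    (hS : ∀ w : HeightOneSpectrum (𝓞 L), w.under (𝓞 K) ∉ S →
      Algebra.IsUnramifiedAt (𝓞 K) w.asIdeal)
    (φ : HeightOneSpectrum (𝓞 K) → (L ≃ₐ[K] L)) (hφ : IsFrob L S φ) :
    ∃ θ : Irr (L ≃ₐ[K] L) → ℂ, (∀ r c, IsLValue S φ r.ρ c ↔ c = θ r) ∧
      ∀ x ∈ annA S φ, x * θ ∈ intRing (L ≃ₐ[K] L) :=
  final' K L A hA hc S hS φ hφ
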