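import Pool.Agent.MP_f3cd89_nt.Tw.Sq

set_option autoImplicit false

open NumberField IsDedekindDomain Pool.Agent.MP_f3cd89_nt

/-- For a monomial Galois group whose commutator subgroup has order `d * s` with `s` squarefree and
a normal Sylow `p`-subgroup for each prime `p` dividing `s`, the product of `d` and a smoothed
Stickelberger element lies in the integrality ring. -/
theorem Pool.Agent.Results.MP_f3cd89_nt.NormalSylow.result (K L : Type) [Field K] [NumberField K]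
    [Field L] [NumberField L] [Algebra K L] [IsGalois K L] [IsTotallyReal K] [IsCMField L]
    (hm : Tw.IsMonomial (L ≃ₐ[K] L)) (d s : ℕ) (hs : Squarefree s)
    (hd : Nat.card (commutator (L ≃ₐ[K] L)) = d * s)
    (hP : ∀ p : ℕ, p.Prime → p ∣ s → ∃ Q : Sylow p (commutator (L ≃ₐ[K] L)),
      (Q : Subgroup (commutator (L ≃ₐ[K] L))).Normal)
    (S : Finset (HeightOneSpectrum (𝓞 K)))
    (hS : ∀ w : HeightOneSpectrum (𝓞 L), w.under (𝓞 K) ∉ S →
      Algebra.IsUnramifiedAt (𝓞 K) w.asIdeal)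
    (φ : HeightOneSpectrum (𝓞 K) → (L ≃ₐ[K] L)) (hφ : IsFrob L S φ) :
    ∃ θ : Irr (L ≃ₐ[K] L) → ℂ, (∀ r c, IsLValue S φ r.ρ c ↔ c = θ r) ∧
      ∀ x ∈ annA S φ, d • (x * θ) ∈ intRing (L ≃ₐ[K] L) :=
  Tw.sqfree hm hs hd hP hS hφ
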