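import Pool.Agent.MP_f3cd89_nt.Tw.T3

set_option autoImplicit false

open NumberField IsDedekindDomain Pool.Agent.MP_f3cd89_nt

/-- If the Galois group is a `p`-group modulo its centre and its commutator subgroup is abelian of
order `p ^ (k + 2)`, then the product of `p ^ k` and a smoothed Stickelberger element lies in the
integrality ring. -/
theorem Pool.Agent.Results.MP_f3cd89_nt.PrimeSquare.result (K L : Type) [Field K] [NumberField K]
    [Field L] [NumberField L] [Algebra K L] [IsGalois K L] [IsTotallyReal K] [IsCMField L]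
    (p k : ℕ) (hp : p.Prime) (hG : IsPGroup p ((L ≃ₐ[K] L) ⧸ Subgroup.center (L ≃ₐ[K] L)))
    (hA : ∀ a ∈ commutator (L ≃ₐ[K] L), ∀ b ∈ commutator (L ≃ₐ[K] L), a * b = b * a)
    (hk : Nat.card (commutator (L ≃ₐ[K] L)) = p ^ (k + 2))
    (S : Finset (HeightOneSpectrum (𝓞 K)))
    (hS : ∀ w : HeightOneSpectrum (𝓞 L), w.under (𝓞 K) ∉ S →
      Algebra.IsUnramifiedAt (𝓞 K) w.asIdeal)
    (φ : HeightOneSpectrum (𝓞 K) → (L ≃ₐ[K] L)) (hφ : IsFrob L S φ) :
    ∃ θ : Irr (L ≃ₐ[K] L) → ℂ, (∀ r c, IsLValue S φ r.ρ c ↔ c = θ r) ∧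
      ∀ x ∈ annA S φ, p ^ k • (x * θ) ∈ intRing (L ≃ₐ[K] L) :=
  Tw.psq hp hG hA hk hS hφ
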